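import Pool.Agent.PSV.StmtsS
import Pool.Agent.Helper53_MTN.MaaP

/-!
# Squad PSV, row MAQ: the Mumford-Tate groups at algebraic points, uniform constants
-/

set_option autoImplicit false

namespace Pool.Agent.PSV.H38

open Matrix Polynomial Pool.Agent.MT100 Pool.Agent.MT100G Pool.Agent.MT100A Pool.Agent.MT100D
  Pool.Agent.Helper78_MT Pool.Agent.MTL Pool.Agent.MTN Pool.Agent.MTN.H53 Pool.Agent.PSV

universe u

theorem maq (hE : ElqStmt) (hT : TenStmt) (hU : TeuStmt) (hL : LieStmt) (hbas : BasDStmt)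
    (hmoa : MoaDStmt) : MaqStmt.{u} := by
  intro n
  obtain ⟨c, h⟩ := hE n 4
  choose a ha using h
  refine ⟨c, a, ?_⟩
  intro d _ _ F B hF w lev hw P hP hInt
  obtain ⟨M0, hM0⟩ := exists_core (mo_isG hbas hmoa F)
  refine ⟨{x | Exz F M0 {b : Fin 4 → d | 2 * w < ∑ j, lev (b j)} P x}, ?_, ?_⟩
  · intro m A K x hx hRx
    exact ha m A d F B hF _ M0 hM0 P hP K x hx hRx
  · intro x hx E V hV K _ _
    refine maa_point hbas hmoa hT hU hL F w hw lev P hP hInt M0 hM0 x ?_ E V hV.1 hV.2.1 hV.2.2 K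
    intro t ht g hg b hb
    by_contra hne
    exact hx ⟨t, ht, g, hg, b, hb, hne⟩

end Pool.Agent.PSV.H38
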