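import Pool.Agent.PSV.StmtsG
import Pool.Agent.Helper51_MT.Sie

/-!
# Squad PSV, row SIP: the auxiliary linear form with an explicit constant

`sie_explicit` is `Pool.Agent.Helper51_MT.sie` with the constant written down.
-/

set_option autoImplicit false

open scoped BigOperators
open Polynomial PowerSeries

noncomputable section

namespace Pool.Agent.PSV.H38

open Pool.Agent.Helper51_MT Pool.Agent.PSV Pool.Agent.MT100

/-- `Pool.Agent.Helper51_MT.sie` with the explicit constant. -/
theorem sie_explicit {κ : Type*} [Fintype κ] [Nonempty κ] {h : κ → PowerSeries ℚ} {C₀ : ℝ}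
    (hG : GT C₀ h) {M : ℕ} (hM : 1 ≤ M) (L : ℕ) (hL : 1 ≤ L) :
    ∃ P : κ → ℤ[X], P ≠ 0 ∧
      (∀ x, (P x).natDegree ≤ M * L) ∧
      (∀ x j, |(((P x).coeff j : ℤ) : ℝ)| ≤
        ((2 * (Fintype.card κ : ℝ) * (M + 1) * C₀ ^ (2 * Fintype.card κ * M)) ^
          (Fintype.card κ * M)) ^ L) ∧
      ∀ i < (Fintype.card κ * M - 1) * L, PowerSeries.coeff i (lform P h) = 0 := by
  classical
  set μ := Fintype.card κ with hμ
  have hμ1 : 1 ≤ μ := Fintype.card_pos
  have hC₀ := hG.one_le
  set B₁ : ℝ := 2 * μ * (M + 1) * C₀ ^ (2 * μ * M) with hB₁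
  have hμ1' : (1 : ℝ) ≤ μ := by exact_mod_cast hμ1
  have hM' : (1 : ℝ) ≤ M := by exact_mod_cast hM
  have hp : 1 ≤ C₀ ^ (2 * μ * M) := one_le_pow₀ hC₀
  have hB₁1 : 1 ≤ B₁ := by
    have h1 : (1 : ℝ) ≤ 2 * μ * (M + 1) := by nlinarith
    calc (1 : ℝ) = 1 * 1 := by ring
      _ ≤ _ := mul_le_mul h1 hp zero_le_one (by linarith)
  set T := (μ * M - 1) * L with hT
  by_cases hT0 : T = 0
  · refine ⟨fun _ => 1, ?_, ?_, ?_, ?_⟩
    · intro h0
      have := congrFun h0 (Classical.arbitrary κ)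
      exact one_ne_zero this
    · intro x
      simp
    · intro x j
      have h1 : (1 : ℝ) ≤ (B₁ ^ (μ * M)) ^ L := one_le_pow₀ (one_le_pow₀ hB₁1)
      refine le_trans ?_ h1
      rw [Polynomial.coeff_one]
      split_ifs <;> simp
    · intro i hi
      omega
  · obtain ⟨D, hD0, hDb, hDz⟩ := hG.den T
    have hz : ∃ z : κ → ℕ → ℤ, ∀ x, ∀ j ≤ T, (D : ℚ) * PowerSeries.coeff j (h x) = z x j := by
      refine ⟨fun x j => if hj : j ≤ T then (hDz x j hj).choose else 0, fun x j hj => ?_⟩
      have h1 : (fun x j => if hj : j ≤ T then (hDz x j hj).choose else 0 : κ → ℕ → ℤ) x j =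
          (hDz x j hj).choose := dif_pos hj
      rw [h1]
      exact (hDz x j hj).choose_spec
    obtain ⟨z, hz⟩ := hz
    let A : Matrix (Fin T) (κ × Fin (M * L + 1)) ℤ := fun i p =>
      if (p.2 : ℕ) ≤ i then z p.1 (i - p.2) else 0
    have hcα : Fintype.card (Fin T) = T := Fintype.card_fin T
    have hcβ : Fintype.card (κ × Fin (M * L + 1)) = μ * (M * L + 1) := by
      rw [Fintype.card_prod, Fintype.card_fin]
    have hμM : 1 ≤ μ * M := Nat.one_le_iff_ne_zero.2 (by positivity)
    have hTL : T + L = μ * M * L := by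
      rw [hT, Nat.sub_mul, one_mul]
      exact Nat.sub_add_cancel (Nat.le_mul_of_pos_left L (by omega))
    have hβ : μ * (M * L + 1) = T + L + μ := by
      rw [hTL]; ring
    have hTle : T + 1 ≤ μ * M * L := by omega
    have hlt : Fintype.card (Fin T) < Fintype.card (κ × Fin (M * L + 1)) := by
      rw [hcα, hcβ, hβ]; omega
    have hE : Fintype.card (Fin T) ≤ (μ * M) *
        (Fintype.card (κ × Fin (M * L + 1)) - Fintype.card (Fin T)) := by
      rw [hcα, hcβ, hβ]
      have h1 : T + L + μ - T = L + μ := by omega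
      rw [h1]
      calc T ≤ μ * M * L := by omega
        _ ≤ _ := Nat.mul_le_mul_left _ (by omega)
    have hBb : ∀ i j, |((A i j : ℤ) : ℝ)| ≤ C₀ ^ (2 * μ * M * L) := by
      intro i j
      by_cases hij : (j.2 : ℕ) ≤ i
      · have hle : (i : ℕ) - j.2 ≤ T := by have := i.2; omega
        have h1 := hz j.1 _ hle
        have h2 : ((A i j : ℤ) : ℝ) = D * ((PowerSeries.coeff ((i : ℕ) - j.2) (h j.1) : ℚ) : ℝ) := by
          change (((if (j.2 : ℕ) ≤ i then z j.1 (i - j.2) else 0 : ℤ)) : ℝ) = _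
          rw [if_pos hij]
          have h3 : (((z j.1 (i - j.2) : ℤ) : ℚ) : ℝ) = (((D : ℚ) *
            PowerSeries.coeff ((i : ℕ) - j.2) (h j.1) : ℚ) : ℝ) := by rw [h1]
          push_cast at h3
          exact h3
        rw [h2, abs_mul, abs_of_nonneg (by positivity : (0 : ℝ) ≤ D)]
        calc (D : ℝ) * |((PowerSeries.coeff ((i : ℕ) - j.2) (h j.1) : ℚ) : ℝ)|
            ≤ C₀ ^ (T + 1) * C₀ ^ ((i : ℕ) - j.2 + 1) :=
              mul_le_mul hDb (hG.bound _ _) (abs_nonneg _) (by positivity)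
          _ ≤ C₀ ^ (T + 1) * C₀ ^ (T + 1) :=
              mul_le_mul_of_nonneg_left (pow_le_pow_right₀ hC₀ (by omega)) (by positivity)
          _ = C₀ ^ (2 * (T + 1)) := by rw [← pow_add]; congr 1; ring
          _ ≤ _ := pow_le_pow_right₀ hC₀ (by
              calc 2 * (T + 1) ≤ 2 * (μ * M * L) := Nat.mul_le_mul_left _ hTle
                _ = _ := by ring)
      · have h2 : A i j = 0 := if_neg hij
        rw [h2, Int.cast_zero, abs_zero]
        positivity
    obtain ⟨t, ht0, hAt, htb⟩ := siegel A hlt (by rw [hcα]; omega) hE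
      (one_le_pow₀ hC₀ : 1 ≤ C₀ ^ (2 * μ * M * L)) hBb
    let t' : κ → ℕ → ℤ := fun x j => if hj : j < M * L + 1 then t (x, ⟨j, hj⟩) else 0
    let P : κ → ℤ[X] := fun x => ∑ j ∈ Finset.range (M * L + 1), Polynomial.monomial j (t' x j)
    have hPc : ∀ x j, (P x).coeff j = t' x j := by
      intro x j
      simp only [P, Polynomial.finsetSum_coeff, Polynomial.coeff_monomial]
      by_cases hj : j < M * L + 1
      · rw [Finset.sum_ite_eq' (Finset.range (M * L + 1)) j (fun k => t' x k),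
          if_pos (Finset.mem_range.2 hj)]
      · rw [Finset.sum_ite_eq' (Finset.range (M * L + 1)) j (fun k => t' x k),
          if_neg (fun hh => hj (Finset.mem_range.1 hh))]
        have h1 : t' x j = 0 := dif_neg hj
        rw [h1]
    have ht'v : ∀ x (j : Fin (M * L + 1)), t' x j = t (x, j) := by
      intro x j
      exact dif_pos j.2
    refine ⟨P, ?_, ?_, ?_, ?_⟩
    · intro h0
      apply ht0
      funext p
      have h1 : (P p.1).coeff p.2 = 0 := by rw [h0]; simp
      rw [hPc, ht'v] at h1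
      exact h1
    · intro x
      refine Polynomial.natDegree_le_iff_coeff_eq_zero.2 fun j hj => ?_
      rw [hPc]
      exact dif_neg (by omega)
    · intro x j
      rw [hPc]
      by_cases hj : j < M * L + 1
      · have h1 : t' x j = t (x, ⟨j, hj⟩) := dif_pos hj
        rw [h1]
        refine (htb _).trans ?_
        have h2 : (Fintype.card (κ × Fin (M * L + 1)) : ℝ) * C₀ ^ (2 * μ * M * L) ≤ B₁ ^ L := by
          rw [hcβ, hB₁, mul_pow, ← pow_mul]
          refine mul_le_mul_of_nonneg_right ?_ (by positivity)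
          have h3 : μ * (M * L + 1) ≤ (2 * μ * (M + 1)) ^ L := by
            have h4 : L ≤ 2 ^ L := Nat.lt_two_pow_self.le
            calc μ * (M * L + 1) ≤ μ * ((M + 1) * L) := Nat.mul_le_mul_left _ (by nlinarith)
              _ = (μ * (M + 1)) * L := by ring
              _ ≤ (μ * (M + 1)) ^ L * 2 ^ L := by
                  refine Nat.mul_le_mul ?_ h4
                  exact Nat.le_self_pow (by omega) _
              _ = _ := by rw [← mul_pow]; congr 1; ring
          exact_mod_cast h3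
        calc ((Fintype.card (κ × Fin (M * L + 1)) : ℝ) * C₀ ^ (2 * μ * M * L)) ^ (μ * M)
            ≤ (B₁ ^ L) ^ (μ * M) := pow_le_pow_left₀ (by positivity) h2 _
          _ = (B₁ ^ (μ * M)) ^ L := by rw [← pow_mul, ← pow_mul, mul_comm]
      · have h1 : t' x j = 0 := dif_neg hj
        rw [h1, Int.cast_zero, abs_zero]
        positivity
    · intro i hi
      have h1 := congrFun hAt ⟨i, hi⟩
      have h2 : (D : ℚ) * PowerSeries.coeff i (lform P h) = (((A.mulVec t) ⟨i, hi⟩ : ℤ) : ℚ) := by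
        rw [coeff_lform, Matrix.mulVec, dotProduct, Fintype.sum_prod_type, Finset.mul_sum]
        push_cast
        refine Finset.sum_congr rfl fun x _ => ?_
        rw [Finset.mul_sum]
        have h3 : ∀ a ∈ Finset.range (i + 1), (D : ℚ) * (((P x).coeff a : ℚ) *
            PowerSeries.coeff (i - a) (h x)) = (t' x a : ℚ) * z x (i - a) := by
          intro a _
          rw [hPc, ← hz x (i - a) (by omega)]
          ring
        rw [Finset.sum_congr rfl h3]
        have h4 : ∀ j : Fin (M * L + 1), ((A ⟨i, hi⟩ (x, j) : ℤ) : ℚ) * ((t (x, j) : ℤ) : ℚ) =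
            (fun a : ℕ => if a ≤ i then (t' x a : ℚ) * z x (i - a) else 0) j := by
          intro j
          change (((if (j : ℕ) ≤ i then z x (i - j) else 0 : ℤ)) : ℚ) * _ = _
          by_cases hj : (j : ℕ) ≤ i
          · simp only [if_pos hj, ht'v]
            ring
          · simp only [if_neg hj, Int.cast_zero, zero_mul]
        rw [Finset.sum_congr rfl fun j _ => h4 j, ← Finset.sum_range
          (fun a : ℕ => if a ≤ i then (t' x a : ℚ) * z x (i - a) else 0), ← Finset.sum_filter]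
        symm
        refine Finset.sum_subset ?_ ?_
        · intro a ha
          rw [Finset.mem_filter] at ha
          exact Finset.mem_range.2 (by omega)
        · intro a ha hna
          rw [Finset.mem_filter, not_and_or] at hna
          rw [Finset.mem_range] at ha
          have h5 : t' x a = 0 := by
            rcases hna with hna | hna
            · exact dif_neg (fun hh => hna (Finset.mem_range.2 hh))
            · omega
          rw [h5, Int.cast_zero, zero_mul]
      rw [h1, Pi.zero_apply, Int.cast_zero] at h2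
      rcases mul_eq_zero.1 h2 with h3 | h3
      · exfalso
        have : D = 0 := by exact_mod_cast h3
        omega
      · exact h3

/-- the structure `GT` from the bounds `GTC` -/
theorem gt_of_gtc {Λ : Type} [Fintype Λ] (h : Λ → PowerSeries ℚ) (B n : ℕ) (hB : 2 ≤ B)
    (hn : Fintype.card Λ ≤ n) (hn1 : 1 ≤ n) (hh : ∀ l, GTC B (h l)) :
    GT ((B : ℝ) ^ n) h := by
  classical
  have hB1 : (1 : ℝ) ≤ B := by
    have : 1 ≤ B := by omega
    exact_mod_cast this
  refine ⟨one_le_pow₀ hB1, ?_, ?_⟩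
  · intro l k
    have h1 := (hh l k).1
    have h2 : |((PowerSeries.coeff k (h l) : ℚ) : ℝ)| ≤ (B : ℝ) ^ (k + 1) := by
      exact_mod_cast h1
    refine h2.trans (pow_le_pow_left₀ (by linarith) ?_ _)
    calc (B : ℝ) = (B : ℝ) ^ 1 := (pow_one _).symm
      _ ≤ (B : ℝ) ^ n := pow_le_pow_right₀ hB1 hn1
  · intro k
    choose D hD0 hDle hDz using fun l => (hh l k).2
    refine ⟨∏ l, D l, Finset.prod_pos fun l _ => hD0 l, ?_, ?_⟩
    · have h1 : ∏ l, D l ≤ (B ^ n) ^ (k + 1) := by
        calc ∏ l, D l ≤ ∏ _l : Λ, B ^ (k + 1) := Finset.prod_le_prod' fun l _ => hDle l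
          _ = (B ^ (k + 1)) ^ Fintype.card Λ := by
              rw [Finset.prod_const, Finset.card_univ]
          _ ≤ (B ^ (k + 1)) ^ n := Nat.pow_le_pow_right (Nat.pow_pos (by omega)) hn
          _ = _ := by rw [← pow_mul, ← pow_mul, mul_comm]
      exact_mod_cast h1
    · intro l j hj
      obtain ⟨z, hz⟩ := hDz l j hj
      refine ⟨(∏ l' ∈ Finset.univ.erase l, (D l' : ℤ)) * z, ?_⟩
      rw [← Finset.mul_prod_erase Finset.univ D (Finset.mem_univ l)]
      push_cast
      rw [← hz]
      ring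

/-- SIP -/
theorem sip : SipStmt := by
  intro n M hM
  refine ⟨(2 + n + M + n * (2 * n * M)) * (n * M), ?_⟩
  intro Λ _ _ h B hB hn hh L hL
  have hc1 : 1 ≤ Fintype.card Λ := Fintype.card_pos
  have hn1 : 1 ≤ n := hc1.trans hn
  obtain ⟨P, hP0, hdeg, hco, hz⟩ := sie_explicit (gt_of_gtc h B n hB hn hn1 hh) hM L hL
  refine ⟨P, hP0, fun l => ⟨hdeg l, fun i => ?_⟩, fun i hi => hz i hi⟩
  set μ := Fintype.card Λ with hμ
  have hkey : (2 * μ * (M + 1) * (B ^ n) ^ (2 * μ * M)) ^ (μ * M) ≤
      B ^ ((2 + n + M + n * (2 * n * M)) * (n * M)) := by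
    have hBpos : 0 < B := by omega
    have h1 : μ ≤ B ^ n := hn.trans (Nat.lt_two_pow_self.le.trans (Nat.pow_le_pow_left hB n))
    have h2 : M + 1 ≤ B ^ (M + 1) :=
      Nat.lt_two_pow_self.le.trans (Nat.pow_le_pow_left hB (M + 1))
    have h3 : (B ^ n) ^ (2 * μ * M) ≤ B ^ (n * (2 * n * M)) := by
      rw [← pow_mul]
      refine Nat.pow_le_pow_right hBpos (Nat.mul_le_mul_left _ (Nat.mul_le_mul_right _ ?_))
      omega
    have h4 : 2 * μ * (M + 1) * (B ^ n) ^ (2 * μ * M) ≤ B ^ (2 + n + M + n * (2 * n * M)) := by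
      calc 2 * μ * (M + 1) * (B ^ n) ^ (2 * μ * M)
          ≤ B * B ^ n * B ^ (M + 1) * B ^ (n * (2 * n * M)) :=
            Nat.mul_le_mul (Nat.mul_le_mul (Nat.mul_le_mul hB h1) h2) h3
        _ = B ^ (2 + n + M + n * (2 * n * M)) := by
            rw [← pow_succ', ← pow_add, ← pow_add]
            congr 1
            ring
    calc (2 * μ * (M + 1) * (B ^ n) ^ (2 * μ * M)) ^ (μ * M)
        ≤ (B ^ (2 + n + M + n * (2 * n * M))) ^ (μ * M) := Nat.pow_le_pow_left h4 _
      _ ≤ (B ^ (2 + n + M + n * (2 * n * M))) ^ (n * M) :=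
          Nat.pow_le_pow_right (Nat.pow_pos hBpos) (Nat.mul_le_mul_right _ hn)
      _ = _ := by rw [← pow_mul]
  have h1 := hco l i
  have h2 : (2 * (μ : ℝ) * (M + 1) * ((B : ℝ) ^ n) ^ (2 * μ * M)) ^ (μ * M) ≤
      (((B ^ ((2 + n + M + n * (2 * n * M)) * (n * M)) : ℕ) : ℤ) : ℝ) := by
    exact_mod_cast hkey
  have h3 : |(((P l).coeff i : ℤ) : ℝ)| ≤
      (((B ^ ((2 + n + M + n * (2 * n * M)) * (n * M)) : ℕ) : ℤ) : ℝ) ^ L :=
    h1.trans (pow_le_pow_left₀ (by positivity) h2 _)
  exact_mod_cast h3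

end Pool.Agent.PSV.H38
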