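import Pool.Agent.PSV.StmtsS
import Pool.Agent.Helper35_HIK.Avs

/-!
# Squad PSV, row SMQ: small conjugates, averaging over windows
-/

set_option autoImplicit false

namespace Pool.Agent.PSV.H38

open Polynomial NumberField Pool.Agent.HIK Pool.Agent.HIK.H35 Pool.Agent.PSV

open Classical in
/-- part (1) -/
theorem smq_small (box : BoxStmt) (k : Type) [Field k] [NumberField k] :
    ∃ C : ℕ, ∀ (σ : k →+* ℂ) (X : ℕ) (Y : ℝ), 1 ≤ X →
    0 ≤ Y → (Nat.card {a : 𝓞 k // ‖σ (a : k)‖ < Y ∧ house (a : k) ≤ X} : ℝ) ≤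
      C * (X : ℝ) ^ (Module.finrank ℚ k - 1) * (Y + 1) := by
  obtain ⟨C1, hC1⟩ := box k
  have hfin : ∀ X : ℕ, {a : 𝓞 k | house (a : k) ≤ X}.Finite := fun X => (hC1 X).1
  obtain ⟨m, hm⟩ : ∃ m, m = Module.finrank ℚ k := ⟨_, rfl⟩
  have hm1 : 1 ≤ m := by
    rw [hm]
    exact Module.finrank_pos
  refine ⟨C1 * 3 ^ m * 2, ?_⟩
  intro σ X Y hX hY
  rw [← hm]
  have hXr : (1 : ℝ) ≤ X := by exact_mod_cast hX
  have hXpos : (0 : ℝ) < X := by linarith
  set R : Set (𝓞 k) := {a : 𝓞 k | ‖σ a‖ < Y} with hR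
  have hcard : Nat.card {a : 𝓞 k // ‖σ (a : k)‖ < Y ∧ house (a : k) ≤ X} =
      ((hfin X).toFinset.filter (· ∈ R)).card := card_eq hfin R X
  rw [hcard]
  have h1 := count_shift hfin R X X X (fun j => (j : 𝓞 k)) (fun j hj => by
    rw [Pool.Agent.HIK.H35.house_natCast]
    exact_mod_cast hj.le)
  have h2 : ((∑ a ∈ (hfin (X + X)).toFinset,
      ((Finset.range X).filter fun j : ℕ => a + (j : 𝓞 k) ∈ R).card : ℕ) : ℝ) ≤
      (hfin (X + X)).toFinset.card * (2 * Y + 1) := by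
    push_cast
    rw [← nsmul_eq_mul]
    refine Finset.sum_le_card_nsmul _ _ _ fun a _ => ?_
    have h3 := card_ball X (σ a) Y hY
    refine le_trans (le_of_eq ?_) h3
    congr 2
    refine Finset.filter_congr fun j _ => ?_
    rw [hR]
    change ‖σ ((a + (j : 𝓞 k) : 𝓞 k) : k)‖ < Y ↔ _
    have e1 : σ ((a + (j : 𝓞 k) : 𝓞 k) : k) = σ (a : k) + j := by
      simp
    rw [e1]
  have h4 : (X : ℝ) * (((hfin X).toFinset.filter (· ∈ R)).card : ℝ) ≤
      (hfin (X + X)).toFinset.card * (2 * Y + 1) := by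
    refine le_trans ?_ h2
    exact_mod_cast h1
  have h5 : ((hfin (X + X)).toFinset.card : ℝ) ≤ C1 * 3 ^ m * (X : ℝ) ^ m := by
    have h6 := (hC1 (X + X)).2
    have h7 : Nat.card {a : 𝓞 k // house (a : k) ≤ ((X + X : ℕ) : ℝ)} =
        (hfin (X + X)).toFinset.card := by
      rw [← Nat.card_eq_finsetCard]
      refine Nat.card_congr (Equiv.subtypeEquivRight fun a => ?_)
      rw [Set.Finite.mem_toFinset]
      exact Iff.rfl
    rw [h7, ← hm] at h6
    have h8 : ((hfin (X + X)).toFinset.card : ℝ) ≤ C1 * ((X : ℝ) + X + 1) ^ m := by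
      exact_mod_cast h6
    refine h8.trans ?_
    have h9 : ((X : ℝ) + X + 1) ^ m ≤ (3 * X) ^ m :=
      pow_le_pow_left₀ (by positivity) (by linarith) _
    calc (C1 : ℝ) * ((X : ℝ) + X + 1) ^ m ≤ C1 * (3 * X) ^ m :=
          mul_le_mul_of_nonneg_left h9 (Nat.cast_nonneg _)
      _ = _ := by rw [mul_pow]; ring
  have h6 : (X : ℝ) * (((hfin X).toFinset.filter (· ∈ R)).card : ℝ) ≤
      X * ((C1 * 3 ^ m * 2 : ℕ) * (X : ℝ) ^ (m - 1) * (Y + 1)) := by
    refine h4.trans ?_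
    have e1 : (X : ℝ) ^ m = X * (X : ℝ) ^ (m - 1) := by
      rw [← pow_succ']
      congr 1
      omega
    calc ((hfin (X + X)).toFinset.card : ℝ) * (2 * Y + 1)
        ≤ (C1 * 3 ^ m * (X : ℝ) ^ m) * (2 * (Y + 1)) :=
          mul_le_mul h5 (by linarith) (by linarith) (by positivity)
      _ = _ := by
          rw [e1]
          push_cast
          ring
  exact le_of_mul_le_mul_left h6 hXpos

open Classical in
/-- part (2) -/
theorem smq_windows (box : BoxStmt) (k : Type) [Field k] [NumberField k] (S Z : Set (𝓞 k))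
    (C M X : ℕ)
    (h : ∀ w : 𝓞 k, w ∉ Z → house (w : k) ≤ X + M → Nat.card {κ : ℕ // κ < M ∧ w - κ ∈ S} ≤ C) :
    M * Nat.card {a : 𝓞 k // a ∈ S ∧ house (a : k) ≤ X} ≤
      C * Nat.card {a : 𝓞 k // house (a : k) ≤ ((X + M : ℕ) : ℝ)} +
        M * Nat.card {a : 𝓞 k // a ∈ Z ∧ house (a : k) ≤ ((X + M : ℕ) : ℝ)} := by
  obtain ⟨C1, hC1⟩ := box k
  have hfin : ∀ X : ℕ, {a : 𝓞 k | house (a : k) ≤ X}.Finite := fun X => (hC1 X).1
  rw [card_eq hfin S X, card_eq hfin Z (X + M)]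
  have hall : Nat.card {a : 𝓞 k // house (a : k) ≤ ((X + M : ℕ) : ℝ)} =
      (hfin (X + M)).toFinset.card := by
    rw [← Nat.card_eq_finsetCard]
    refine Nat.card_congr (Equiv.subtypeEquivRight fun a => ?_)
    rw [Set.Finite.mem_toFinset]
    exact Iff.rfl
  rw [hall]
  have h1 := count_shift hfin S M X M (fun j => -(j : 𝓞 k)) (fun j hj => by
    rw [Pool.Agent.HIK.H35.house_neg_natCast]
    exact_mod_cast hj.le)
  have h2 : ∑ a ∈ (hfin (X + M)).toFinset,
      ((Finset.range M).filter fun j : ℕ => a + -(j : 𝓞 k) ∈ S).card ≤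
      ∑ a ∈ (hfin (X + M)).toFinset, (C + (if a ∈ Z then M else 0)) := by
    refine Finset.sum_le_sum fun a ha => ?_
    rw [Set.Finite.mem_toFinset] at ha
    have haX : house (a : k) ≤ ((X + M : ℕ) : ℝ) := ha
    by_cases haZ : a ∈ Z
    · rw [if_pos haZ]
      have h3 := Finset.card_filter_le (Finset.range M) (fun j : ℕ => a + -(j : 𝓞 k) ∈ S)
      rw [Finset.card_range] at h3
      omega
    rw [if_neg haZ, add_zero]
    have h7 := h a haZ (by push_cast at haX; exact haX)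
    refine le_trans (le_of_eq ?_) h7
    rw [← Nat.card_eq_finsetCard]
    refine Nat.card_congr (Equiv.subtypeEquivRight fun κ => ?_)
    rw [Finset.mem_filter, Finset.mem_range, ← sub_eq_add_neg]
  refine (h1.trans h2).trans (le_of_eq ?_)
  rw [Finset.sum_add_distrib, Finset.sum_const, smul_eq_mul, ← Finset.sum_filter,
    Finset.sum_const, smul_eq_mul]
  ring

theorem smq (box : BoxStmt) : SmqStmt :=
  ⟨fun k _ _ => smq_small box k, fun k _ _ S Z C M X _ h => smq_windows box k S Z C M X h⟩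

end Pool.Agent.PSV.H38
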